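import Pool.Agent.H30.AB.Lst
import Pool.Agent.H30.LPT.Twj
import Pool.Agent.H62.AB.NumR

/-!
# Lists of jets over the charts of one early window: families and single quantities

`linG_der`: linear levels near a point from the derivatives. `rfam_xL`: the lists of order `i`, digits
`(a - i) (x j - b)`, are a family given the near path over the charts of `b`. `rsin_xL`: a list of
fixed digits is a single quantity. `rfam_box`, `rsin_box`, `cost_box`: the same with explicit digits of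
the near path.
-/

set_option autoImplicit false

namespace Pool.LST30

open Finset Real MvPolynomial
open Pool.Agent.H49.Ent Pool.Agent.H32.Dense Pool.STK Pool.KA Pool.KSAT Pool.K2S Pool.PB Pool.S6C
  Pool.GEN Pool.RCD Pool.LA91
open Pool.AVG96 (few_cut)
open Pool.LP30 Pool.LPJ30 Pool.LPT30 Pool.AB62

variable {m : ℕ} {U U' : Type} {α β γ : ∀ J : ℕ, Fam m J → Type}
  {f : ∀ (J : ℕ) (F : Fam m J), F.Ω → α J F} {g : ∀ (J : ℕ) (F : Fam m J), F.Ω → β J F}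
  {y : ∀ (J : ℕ) (F : Fam m J), F.Ω → γ J F} {S : PCl m}

/-- **Linear levels near a point** from the derivatives. -/
theorem linG_der {sn : ℕ → ℝ → ℝ} {r : ℕ} {G : Set ℝ} {g a : ℝ}
    (hd : ∀ l < r, HasDerivAt (fun x => sn l x) 1 g) (hu : HasDerivAt (sn r) a g)
    (hn : HasDerivAt (sn (r + 1)) a g) (gap : GpB G g) {η : ℝ} (hη : 0 < η) :
    ∃ ρ : ℝ, 0 < ρ ∧ ∀ t : ℝ, 0 < t → t < ρ →
      LinG sn r G a (g - t) (g + t) (η * t) (η * t) := by
  obtain ⟨ρ₁, h1, H1⟩ := fin_evn (D := r) (Pr := fun l t => ∀ w v : ℝ, g - t ≤ w → w ≤ v →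
    v ≤ g + t → |sn l v - sn l w - 1 * (v - w)| ≤ η * t) fun l hl => der_bx (hd l hl) hη
  obtain ⟨ρ₂, h2, H2⟩ := der_bx hu hη
  obtain ⟨ρ₃, h3, H3⟩ := der_bx hn hη
  obtain ⟨ρ₄, h4, H4⟩ := gap η hη
  refine ⟨min (min ρ₁ ρ₂) (min ρ₃ ρ₄), lt_min (lt_min h1 h2) (lt_min h3 h4), fun t ht htρ => ?_⟩
  have t1 : t < ρ₁ := htρ.trans_le ((min_le_left _ _).trans (min_le_left _ _))
  have t2 : t < ρ₂ := htρ.trans_le ((min_le_left _ _).trans (min_le_right _ _))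
  have t3 : t < ρ₃ := htρ.trans_le ((min_le_right _ _).trans (min_le_left _ _))
  have t4 : t < ρ₄ := htρ.trans_le ((min_le_right _ _).trans (min_le_right _ _))
  refine ⟨fun l hl x _ y _ a b e => ?_, fun x _ y _ a b e => H2 t ht t2 x y a b e,
    fun x _ y _ a b e => H3 t ht t3 x y a b e, H4 t ht t4⟩
  have := H1 t ht t1 l hl x y a b e
  rwa [one_mul] at this

section

variable {c : ℕ → Fin m} {r : ℕ} {sn : ℕ → ℝ → ℝ} {G : Set ℝ} {nH nV lv : ℕ → ℝ}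
  {σ₀ R a p b o ε μ A D s : ℝ} {N : ℕ} {x : ℕ → ℝ}

/-- **The lists are a family** given the near path. -/
theorem rfam_xL {C₀ : ℝ} (htm : TmC S C₀)
    (hpos : ∀ (τ : ℝ) (J : ℕ) (F : Fam m J) (A : F.Ω → Prop), S.St τ J F A → 0 < Pe F.p A)
    (hW : ChG S c (r + 1) sn G)
    (hT : TwT S c r sn G (c (r + 1)) (sn (r + 1)))
    (hf : ∀ (J : ℕ) (F : Fam m J), ∃ φ : α J F → PtT F, ∀ ω, ptr F J ω = φ (f J F ω))
    (hy : Kn ((range 0).image c) 1 1 y) (hG : IsClosed G)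
    (hmn : ∀ l ≤ r, ∀ w ∈ G, ∀ v ∈ G, w ≤ v → sn l w ≤ sn l v)
    (hx : ∀ j ≤ N, x j ∈ G) (mono : ∀ i j, i ≤ j → j ≤ N → x i ≤ x j) (one : x N ≤ 1)
    (h : ∀ j ≤ N, LsW sn r nH nV lv σ₀ G R b (x j))
    (hL : LinG sn r G a p o ε μ) (hb : b ∈ G) (hpb : p ≤ b) (hxo : x N ≤ o) (hε : 0 ≤ ε)
    (hμ : 0 ≤ μ) {i : ℕ} (hi : (i : ℝ) ≤ a) (hs : 0 < s) (hR : a * (x N - b) + s + ε ≤ R)
    (deep : (a - i) * (x N - x 0) + s + ε ≤ x 0 - b) :
    RFam S f y N x (paQ m c r b (fun l => sn l b) nH nV)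
      (fun j => xL m c r i b sn ((a - i) * (x j - b)) s) (2 * a * Real.log 2)
      (Real.log 2 * (s + 3 * ε + a * μ)) := by
  have hl2 : 0 < Real.log 2 := Real.log_pos one_lt_two
  have ha : 0 ≤ a := (Nat.cast_nonneg i).trans hi
  have hai : 0 ≤ a - i := by linarith
  have h0 : ∀ j ≤ N, b ≤ x j := fun j hj => (h j hj).nr.bW
  have hlo : ∀ j ≤ N, x 0 ≤ x j := fun j hj => mono 0 j (Nat.zero_le _) hj
  have hhi : ∀ j ≤ N, x j ≤ x N := fun j hj => mono j N hj le_rfl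
  have key : ∀ q j k, q ≤ j → j ≤ k → k ≤ N → Few S f (vg (x q)) y
      ((paQ m c r b (fun l => sn l b) nH nV).prod
        (xL m c r i b sn ((a - i) * (x k - b)) s))
      (xL m c r i b sn ((a - i) * (x j - b)) s) := by
    intro q j k hqj hjk hk
    have hj : j ≤ N := hjk.trans hk
    have hq : q ≤ N := hqj.trans hj
    have e1 : (a - i) * (x j - b) ≤ (a - i) * (x N - b) :=
      mul_le_mul_of_nonneg_left (by linarith [hhi j hj]) hai
    have e2 : (i : ℝ) * (x q - b) ≤ i * (x N - b) :=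
      mul_le_mul_of_nonneg_left (by linarith [hhi q hq]) (Nat.cast_nonneg i)
    have e3 : (a - i) * (x j - x q) ≤ (a - i) * (x N - x 0) :=
      mul_le_mul_of_nonneg_left (by linarith [hhi j hj, hlo q hq]) hai
    refine xL_fewL htm hpos hW hf hy (hx q hq) (h q hq) hL hb hpb ((hhi q hq).trans hxo)
      (hmn r le_rfl b hb (x q) (hx q hq) (h0 q hq)) hs (mul_nonneg hai (by linarith [h0 j hj]))
      (mul_le_mul_of_nonneg_left (by linarith [mono j k hjk hk]) hai) (by linarith)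
      fun _ => ?_
    have e4 : (a - i) * (x j - b) = (a - i) * (x j - x q) + (a - i) * (x q - b) := by ring
    have e5 : (a - i + 1) * (x q - b) = (a - i) * (x q - b) + (x q - b) := by ring
    linarith [hlo q hq]
  refine
    { mono := mono
      one := one
      exs := fun j _ => (exs_pa (chG_take hW (Nat.le_succ r)) hb nH nV).prod
        (xL_exs hW hT hb i _ s)
      pp := fun j hj => pa_self htm hpos (chG_take hW (Nat.le_succ r)) hf hy (hx j hj) (h j hj)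
      few := fun i j a b => key i j j a le_rfl b
      crs := fun i j k a b c => key i j k a b c
      cap := fun q j hqj hj => ?_ }
  have hq : q ≤ N := hqj.trans hj
  have e2 : (i : ℝ) * (x q - b) ≤ a * (x q - b) :=
    mul_le_mul_of_nonneg_right hi (by linarith [h0 q hq])
  have e3 : a * (x q - b) ≤ a * (x N - b) :=
    mul_le_mul_of_nonneg_left (by linarith [hhi q hq]) ha
  have e6 : 0 ≤ (a - i) * (x j - x q) := mul_nonneg hai (by linarith [mono q j hqj hj])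
  have e7 : (a - i) * (x j - b) - (a - i) * (x q - b) = (a - i) * (x j - x q) := by ring
  refine (xL_cost htm hpos hW hT hf hy hG hmn (hx q hq) (h q hq) hL hb hpb
    ((hhi q hq).trans hxo) ha hε hμ (by linarith) (by linarith) hs.le).mono ?_
  rw [e7, max_eq_right e6]
  have e8 : (i : ℝ) * (x j - x q) ≥ 0 :=
    mul_nonneg (Nat.cast_nonneg i) (by linarith [mono q j hqj hj])
  have e9 : Real.log 2 * (2 * ((a - i) * (x j - x q)) + s + 3 * ε + a * μ) =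
      2 * a * Real.log 2 * (x j - x q) + Real.log 2 * (s + 3 * ε + a * μ) -
        2 * (Real.log 2 * (i * (x j - x q))) := by ring
  rw [e9]
  have e10 : 0 ≤ Real.log 2 * (i * (x j - x q)) := mul_nonneg hl2.le e8
  linarith

/-- **A list of fixed digits is a single quantity** given the near path. -/
theorem rsin_xL {C₀ : ℝ} (htm : TmC S C₀)
    (hpos : ∀ (τ : ℝ) (J : ℕ) (F : Fam m J) (A : F.Ω → Prop), S.St τ J F A → 0 < Pe F.p A)
    (hW : ChG S c (r + 1) sn G)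
    (hT : TwT S c r sn G (c (r + 1)) (sn (r + 1)))
    (hf : ∀ (J : ℕ) (F : Fam m J), ∃ φ : α J F → PtT F, ∀ ω, ptr F J ω = φ (f J F ω))
    (hy : Kn ((range 0).image c) 1 1 y)
    (hmn : ∀ l ≤ r, ∀ w ∈ G, ∀ v ∈ G, w ≤ v → sn l w ≤ sn l v)
    (hx : ∀ j ≤ N, x j ∈ G) (mono : ∀ i j, i ≤ j → j ≤ N → x i ≤ x j)
    (h : ∀ j ≤ N, LsW sn r nH nV lv σ₀ G R b (x j))
    (hL : LinG sn r G a p o ε μ) (hb : b ∈ G) (hpb : p ≤ b) (hxo : x N ≤ o)
    {i : ℕ} {B : ℝ} (hi : (i : ℝ) ≤ a + 1) (hs : 0 < s) (hB : 0 ≤ B)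
    (hR : B + s + i * (x N - b) ≤ R) (deep : B + s + ε ≤ (a - i + 1) * (x 0 - b)) :
    RSin S f y N x (paQ m c r b (fun l => sn l b) nH nV) (xL m c r i b sn B s) := by
  have h0 : ∀ j ≤ N, b ≤ x j := fun j hj => (h j hj).nr.bW
  have hlo : ∀ j ≤ N, x 0 ≤ x j := fun j hj => mono 0 j (Nat.zero_le _) hj
  have hhi : ∀ j ≤ N, x j ≤ x N := fun j hj => mono j N hj le_rfl
  refine
    { exs := (exs_pa (chG_take hW (Nat.le_succ r)) hb nH nV).prod (xL_exs hW hT hb i _ s)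
      pp := fun j hj => pa_self htm hpos (chG_take hW (Nat.le_succ r)) hf hy (hx j hj) (h j hj)
      few := fun q hq => ?_ }
  have e2 : (i : ℝ) * (x q - b) ≤ i * (x N - b) :=
    mul_le_mul_of_nonneg_left (by linarith [hhi q hq]) (Nat.cast_nonneg i)
  have e3 : (a - i + 1) * (x 0 - b) ≤ (a - i + 1) * (x q - b) :=
    mul_le_mul_of_nonneg_left (by linarith [hlo q hq]) (by linarith)
  exact xL_fewL htm hpos hW hf hy (hx q hq) (h q hq) hL hb hpb ((hhi q hq).trans hxo)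
    (hmn r le_rfl b hb (x q) (hx q hq) (h0 q hq)) hs hB le_rfl (by linarith)
    fun _ => by linarith

/-- **The data at all windows of the box**, digits `dgj`. -/
theorem lsW_box (hA : 0 ≤ A) (hD : 0 < D) (hε : 0 ≤ ε) (hμ : 0 ≤ μ) (hεμ : ε + μ ≤ D / 4)
    (hL : LinG sn r G a p o ε μ) (hb : b ∈ G)
    (hmn : ∀ l ≤ r, ∀ w ∈ G, ∀ v ∈ G, w ≤ v → sn l w ≤ sn l v)
    (hx : ∀ j ≤ N, x j ∈ G) (mono : ∀ i j, i ≤ j → j ≤ N → x i ≤ x j) (hbx : b ≤ x 0)
    (hxo : x N ≤ o) (hxb : x N ≤ b + D) (hp : p + (A + 4 * D) * 4 ^ r + D ≤ b)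
    (hroom : 3 * ((A + 4 * D) * 4 ^ r) ≤ 1 - x N) :
    ∀ j ≤ N, LsW sn r (fun l => sn l b + Pool.RJ28.dgj A D r l + 2 * D)
      (fun l => sn l b + Pool.RJ28.dgj A D r l + 2 * D - b) (Pool.RJ28.dgj A D r) (D / 2) G A b
      (x j) := by
  intro j hj
  have h1 := mono 0 j (Nat.zero_le _) hj
  have h2 := mono j N hj le_rfl
  exact lsW_lin hA hD hε hμ hεμ hL hb (hx j hj) (by linarith) (by linarith) (by linarith) hp
    (by linarith) fun l hl => hmn l hl.le b hb (x j) (hx j hj) (by linarith)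

/-- **The lists are a family**, explicit digits. -/
theorem rfam_box {C₀ : ℝ} (htm : TmC S C₀)
    (hpos : ∀ (τ : ℝ) (J : ℕ) (F : Fam m J) (A : F.Ω → Prop), S.St τ J F A → 0 < Pe F.p A)
    (hW : ChG S c (r + 1) sn G)
    (hT : TwT S c r sn G (c (r + 1)) (sn (r + 1)))
    (hf : ∀ (J : ℕ) (F : Fam m J), ∃ φ : α J F → PtT F, ∀ ω, ptr F J ω = φ (f J F ω))
    (hy : Kn ((range 0).image c) 1 1 y) (hG : IsClosed G)
    (hmn : ∀ l ≤ r, ∀ w ∈ G, ∀ v ∈ G, w ≤ v → sn l w ≤ sn l v)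
    (hx : ∀ j ≤ N, x j ∈ G) (mono : ∀ i j, i ≤ j → j ≤ N → x i ≤ x j)
    (hA : 0 ≤ A) (hD : 0 < D) (hε : 0 ≤ ε) (hμ : 0 ≤ μ) (hεμ : ε + μ ≤ D / 4)
    (hL : LinG sn r G a p o ε μ) (hb : b ∈ G) (hbx : b ≤ x 0) (hxo : x N ≤ o)
    (hxb : x N ≤ b + D) (hp : p + (A + 4 * D) * 4 ^ r + D ≤ b)
    (hroom : 3 * ((A + 4 * D) * 4 ^ r) ≤ 1 - x N) {i : ℕ} (hi : (i : ℝ) ≤ a) (hs : 0 < s)
    (hR : a * (x N - b) + s + ε ≤ A) (deep : (a - i) * (x N - x 0) + s + ε ≤ x 0 - b) :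
    RFam S f y N x (paQ m c r b (fun l => sn l b)
      (fun l => sn l b + Pool.RJ28.dgj A D r l + 2 * D)
      (fun l => sn l b + Pool.RJ28.dgj A D r l + 2 * D - b))
      (fun j => xL m c r i b sn ((a - i) * (x j - b)) s) (2 * a * Real.log 2)
      (Real.log 2 * (s + 3 * ε + a * μ)) := by
  have hP : 0 ≤ (A + 4 * D) * 4 ^ r := by positivity
  exact rfam_xL htm hpos hW hT hf hy hG hmn hx mono (by linarith)
    (lsW_box hA hD hε hμ hεμ hL hb hmn hx mono hbx hxo hxb hp hroom) hL hb (by linarith) hxo hε hμ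
    hi hs hR deep

/-- **A list of fixed digits is a single quantity**, explicit digits; the cost at `x 0`. -/
theorem rsin_box {C₀ : ℝ} (htm : TmC S C₀)
    (hpos : ∀ (τ : ℝ) (J : ℕ) (F : Fam m J) (A : F.Ω → Prop), S.St τ J F A → 0 < Pe F.p A)
    (hW : ChG S c (r + 1) sn G)
    (hT : TwT S c r sn G (c (r + 1)) (sn (r + 1)))
    (hf : ∀ (J : ℕ) (F : Fam m J), ∃ φ : α J F → PtT F, ∀ ω, ptr F J ω = φ (f J F ω))
    (hy : Kn ((range 0).image c) 1 1 y) (hG : IsClosed G)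
    (hmn : ∀ l ≤ r, ∀ w ∈ G, ∀ v ∈ G, w ≤ v → sn l w ≤ sn l v)
    (hx : ∀ j ≤ N, x j ∈ G) (mono : ∀ i j, i ≤ j → j ≤ N → x i ≤ x j)
    (hA : 0 ≤ A) (hD : 0 < D) (hε : 0 ≤ ε) (hμ : 0 ≤ μ) (hεμ : ε + μ ≤ D / 4)
    (hL : LinG sn r G a p o ε μ) (hb : b ∈ G) (hbx : b ≤ x 0) (hxo : x N ≤ o)
    (hxb : x N ≤ b + D) (hp : p + (A + 4 * D) * 4 ^ r + D ≤ b)
    (hroom : 3 * ((A + 4 * D) * 4 ^ r) ≤ 1 - x N) {i : ℕ} {B : ℝ} (hi : (i : ℝ) ≤ a) (hs : 0 < s)
    (hB : 0 ≤ B) (hR : a * (x N - b) + B + s + ε ≤ A)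
    (deep : B + s + ε ≤ (a - i + 1) * (x 0 - b)) :
    RSin S f y N x (paQ m c r b (fun l => sn l b)
      (fun l => sn l b + Pool.RJ28.dgj A D r l + 2 * D)
      (fun l => sn l b + Pool.RJ28.dgj A D r l + 2 * D - b)) (xL m c r i b sn B s) ∧
    FewC S f (vg (x 0)) y (paQ m c r b (fun l => sn l b)
      (fun l => sn l b + Pool.RJ28.dgj A D r l + 2 * D)
      (fun l => sn l b + Pool.RJ28.dgj A D r l + 2 * D - b)) (xL m c r i b sn B s)
      (Real.log 2 * (2 * B + s + 3 * ε + a * μ)) := by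
  have hl2 : 0 < Real.log 2 := Real.log_pos one_lt_two
  have ha : 0 ≤ a := (Nat.cast_nonneg i).trans hi
  have hP : 0 ≤ (A + 4 * D) * 4 ^ r := by positivity
  have hlo := mono 0 N (Nat.zero_le _) le_rfl
  have hW0 := lsW_box hA hD hε hμ hεμ hL hb hmn hx mono hbx hxo hxb hp hroom
  have e1 : (i : ℝ) * (x N - b) ≤ a * (x N - b) :=
    mul_le_mul_of_nonneg_right hi (by linarith)
  have e2 : (i : ℝ) * (x 0 - b) ≤ a * (x 0 - b) :=
    mul_le_mul_of_nonneg_right hi (by linarith)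
  have e3 : a * (x 0 - b) ≤ a * (x N - b) := mul_le_mul_of_nonneg_left (by linarith) ha
  refine ⟨rsin_xL htm hpos hW hT hf hy hmn hx mono hW0 hL hb (by linarith) hxo (by linarith) hs hB
    (by linarith) deep, ?_⟩
  refine (xL_cost htm hpos hW hT hf hy hG hmn (hx 0 (Nat.zero_le _)) (hW0 0 (Nat.zero_le _)) hL hb
    (by linarith) (by linarith) ha hε hμ (by linarith) (by linarith) hs.le).mono
    (mul_le_mul_of_nonneg_left ?_ hl2.le)
  have e4 : 0 ≤ (a - i) * (x 0 - b) := mul_nonneg (by linarith) (by linarith)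
  have e5 : max 0 (B - (a - i) * (x 0 - b)) ≤ B := max_le hB (by linarith)
  linarith

end

end Pool.LST30
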