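import Pool.Agent.H30.LPT.Twf
import Pool.Agent.H28.RJ.Uni

/-!
# Lists of jets over the charts of one early window

All jets are over the charts of the window `b`, the record is taken at the window `v ≥ b`. `few_stepG`:
change of the charts for a jet over the chain and the last place, the jets of the last place in the
condition. `xL`: the list of order `i`. `xL_exs`, `pa_self`, `xL_few`, `xL_cost`, `xL_zero`: existence,
few bits of each other, cost.
-/

set_option autoImplicit false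

namespace Pool.LST30

open Finset Real MvPolynomial
open Pool.Agent.H49.Ent Pool.Agent.H32.Dense Pool.STK Pool.KA Pool.KSAT Pool.K2S Pool.PB Pool.S6C
  Pool.GEN Pool.RCD Pool.LA91
open Pool.AVG96 (few_cut)
open Pool.LP30 Pool.LPJ30 Pool.LPT30

variable {m : ℕ} {U U' : Type} {α β γ : ∀ J : ℕ, Fam m J → Type}
  {f : ∀ (J : ℕ) (F : Fam m J), F.Ω → α J F} {g : ∀ (J : ℕ) (F : Fam m J), F.Ω → β J F}
  {y : ∀ (J : ℕ) (F : Fam m J), F.Ω → γ J F} {S : PCl m}

section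

variable {c : ℕ → Fin m} {d : ℕ} {sn : ℕ → ℝ → ℝ} {G : Set ℝ} {v B σ₀ : ℝ} {lv : ℕ → ℝ}

/-- **Change of the charts** for a jet over the chain and the last place; the jets of the last place
over the charts of `B`, `M` digits behind `sn d B`, are in the condition. -/
theorem few_stepG {C₀ : ℝ} (htm : TmC S C₀)
    (hpos : ∀ (τ : ℝ) (J : ℕ) (F : Fam m J) (A : F.Ω → Prop), S.St τ J F A → 0 < Pe F.p A)
    (hW : ChG S c (d + 1) sn G)
    (hf : ∀ (J : ℕ) (F : Fam m J), ∃ φ : α J F → PtT F, ∀ ω, ptr F J ω = φ (f J F ω))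
    (hy : Kn ((range 0).image c) 1 1 y) (av : v ∈ G) (aB : B ∈ G) (hL : LvR d lv σ₀ v)
    (hBv : B ≤ v) (mn : ∀ l < d, sn l B ≤ sn l v) {j : ℕ} {M σ₁ : ℝ} (hM : 0 ≤ M)
    (hσ₁ : 0 < σ₁) (hσ₁0 : 3 * σ₁ ≤ σ₀) (hM1 : M + j * (v - B) + 2 * σ₀ ≤ 1 - v)
    (hMl : ∀ l < d, M + j * (v - B) + 2 * σ₀ ≤ lv l)
    {Q : Qt m U} (hQ : Few S f (vg v) y Q (vpQ m c sn lv σ₀ v d j))
    (hu : ∀ j' ≤ j, Few S f (vg v) y Q (qJet m ((range d).image c) (c d) j' B
      (sn d B) (sn d B + M - (j' : ℕ) * B + 2 * σ₁))) {k : Fin m}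
    {w₁ w₂ p₁ p₂ N₁ N₂ : ℝ} (h1 : w₁ ≤ B) (h2 : w₂ ≤ B) (hN : N₂ ≤ N₁)
    (hC : N₂ + j * B ≤ min p₁ p₂ + M) :
    Few S f (vg v) y (Q.prod (qJet m ((range (d + 1)).image c) k j w₁ p₁ N₁))
      (qJet m ((range (d + 1)).image c) k j w₂ p₂ N₂) := by
  have hσ := hL.σ0
  obtain ⟨u₁, rd, hrd, hch⟩ := hW.ch v av
  obtain ⟨u₂, rd₂, hrd₂, hch₂⟩ := hW.ch B aB
  have hv1 := hch.u0
  have hjv : 0 ≤ (j : ℝ) * (v - B) := mul_nonneg (Nat.cast_nonneg _) (by linarith)
  -- the jets of the last place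
  have hU := few_pi hpos (Q' := fun j' : Fin (j + 1) => qJet m ((range d).image c) (c d) j' B
      (sn d B) (sn d B + M - (j' : ℕ) * B + 2 * σ₁)) fun j' => hu j' (by have := j'.2; omega)
  have xU : Exs S (Qt.pi fun j' : Fin (j + 1) => qJet m ((range d).image c) (c d) j' B
      (sn d B) (sn d B + M - (j' : ℕ) * B + 2 * σ₁)) :=
    exs_pi fun j' => exs_jet (hrd₂ d (by omega)) (hch₂.att d (Nat.zero_le d) (by omega))
  -- the levels at `B`
  obtain ⟨lB, hlB⟩ : ∃ lB : ℕ → ℝ, lB = fun l => if l = d then M + σ₁ else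
      lv l - j * (v - B) - σ₁ := ⟨_, rfl⟩
  have lBd : lB d = M + σ₁ := by rw [hlB]; simp
  have lBl : ∀ l < d, lB l = lv l - j * (v - B) - σ₁ := fun l hl => by
    rw [hlB]
    simp [hl.ne]
  have hLB : LvR (d + 1) lB σ₁ B := by
    refine ⟨hσ₁, fun l hl => ?_, fun l hl => ?_, fun l hl l' hl' => ?_⟩
    · rcases Nat.lt_succ_iff_lt_or_eq.1 hl with h | rfl
      · rw [lBl l h]
        linarith [hMl l h]
      · rw [lBd]
        linarith
    · rcases Nat.lt_succ_iff_lt_or_eq.1 hl with h | rfl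
      · rw [lBl l h]
        linarith [hL.room l h]
      · rw [lBd]
        linarith
    · rcases Nat.lt_succ_iff_lt_or_eq.1 hl with h | rfl
      · rw [lBl l h, lBl l' (by omega)]
        linarith [hL.dec l h l' hl']
      · rw [lBd, lBl l' hl']
        linarith [hMl l' hl']
  have hLd : LvR d lB σ₁ B := ⟨hσ₁, fun l hl => hLB.pos l (by omega),
    fun l hl => hLB.room l (by omega), fun l hl l' hl' => hLB.dec l (by omega) l' hl'⟩
  have up : ∀ {V V' : Type} {Q₁ : Qt m V} {Q₂ : Qt m V'}, Few S f (vg B) y Q₁ Q₂ →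
      Few S f (vg v) y Q₁ Q₂ := fun h3 =>
    Few.up hpos (fun J F => ⟨fun x => x, fun _ => rfl⟩) (fun J F => vg_mono hBv hv1.le J F)
      (fun J F => ⟨fun x => x, fun _ => rfl⟩) h3
  have hV0 : Few S f (vg v) y Q (vpQ m c sn lB σ₁ B d j) := by
    refine few_cut hpos (exs_vp hW av (Nat.le_succ d) j) hQ (few_sndQ hpos ?_)
    have h3 := few_vpB htm hpos hW hf hy av (Nat.le_succ d) hL hBv mn σ₁ j
    intro h hh
    obtain ⟨e, he, H⟩ := h3 h hh
    refine ⟨e, he, fun K => Bas.mono 0 (H K) ?_⟩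
    rintro J - F A H u u' hu hu'
    refine H u u' hu ⟨fun l l0 hl j' hj' => ?_, hu'.2⟩
    have h5 := hu'.1 l l0 hl j' hj'
    simp only [lBl l hl] at h5
    exact h5
  have hV : Few S f (vg v) y (Q.prod (Qt.pi fun j' : Fin (j + 1) =>
      qJet m ((range d).image c) (c d) j' B (sn d B) (sn d B + M - (j' : ℕ) * B + 2 * σ₁)))
      (vpQ m c sn lB σ₁ B (d + 1) j) := by
    refine few_qjets hpos fun l _ hl j' hj' => ?_
    rcases Nat.lt_succ_iff_lt_or_eq.1 hl with h | rfl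
    · refine few_fstQ hpos (few_cut hpos (exs_vp hW aB (Nat.le_succ d) j) hV0
        (few_sndQ hpos (up ?_)))
      refine Few.pre hpos (fun u : ℕ → ℕ → ℤ =>
        ((fun l' j'' => if 0 ≤ l' ∧ l' < l ∧ j'' ≤ j' then u l' j'' else 0), u l j')) ?_
        (few_tgR htm hW hf hy aB (i := l) (by omega)
          ⟨hσ₁, fun l' h => hLB.pos l' (by omega), fun l' h => hLB.room l' (by omega),
            fun l' h l'' h' => hLB.dec l' (by omega) l'' h'⟩ (j := j') (k := c l)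
          (w₁ := B) (w₂ := B) (p₁ := sn l B) (p₂ := sn l B)
          (N₁ := sn l B + lB l + σ₁ - (j' : ℕ) * B) le_rfl le_rfl le_rfl ?_
          (fun l' hl' => ?_))
      · intro K e J F A u hu
        exact ⟨qJets_take h.le hj' hu, hu.1 l (Nat.zero_le _) h j' hj'⟩
      · rw [min_self, lBl l h]
        linarith [hL.room l h]
      · rw [min_self, lBl l h, lBl l' (by omega)]
        linarith [hL.dec l h l' hl']
    · refine few_cut hpos (exs_vp hW aB (Nat.le_succ l) j) (few_fstQ hpos hV0) (up ?_)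
      refine Few.pre hpos (fun u : (U × (Fin (j + 1) → ℤ)) × (ℕ → ℕ → ℤ) =>
        ((fun l' j'' => if 0 ≤ l' ∧ l' < l ∧ j'' ≤ j' then u.2 l' j'' else 0),
          u.1.2 ⟨j', by omega⟩)) ?_
        (few_tgR htm hW hf hy aB (i := l) (by omega) hLd (j := j') (k := c l)
          (w₁ := B) (w₂ := B) (p₁ := sn l B) (p₂ := sn l B)
          (N₁ := sn l B + M - (j' : ℕ) * B + 2 * σ₁) le_rfl le_rfl ?_ ?_
          (fun l' hl' => ?_))
      · intro K e J F A u hu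
        exact ⟨qJets_take le_rfl hj' hu.2, hu.1.2 ⟨j', by omega⟩⟩
      · rw [lBd]
        linarith
      · rw [min_self, lBd]
        linarith
      · rw [min_self, lBd, lBl l' hl']
        linarith [hMl l' hl']
  -- the target
  have h5 : Few S f (vg v) y ((Q.prod (qJet m ((range (d + 1)).image c) k j w₁ p₁ N₁)).prod
      (Qt.pi fun j' : Fin (j + 1) =>
      qJet m ((range d).image c) (c d) j' B (sn d B) (sn d B + M - (j' : ℕ) * B + 2 * σ₁)))
      (vpQ m c sn lB σ₁ B (d + 1) j) :=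
    Few.pre hpos (fun u : (U × ℤ) × (Fin (j + 1) → ℤ) => (u.1.1, u.2))
      (fun K e J F A u hu => by exact ⟨hu.1.1, hu.2⟩) hV
  refine few_cut hpos xU (Few.fst hpos hU) (few_cut hpos (exs_vp hW aB le_rfl j) h5 (up ?_))
  refine Few.pre hpos (fun u : ((U × ℤ) × (Fin (j + 1) → ℤ)) × (ℕ → ℕ → ℤ) =>
    (u.2, u.1.1.2)) (fun K e J F A u hu => by exact ⟨hu.2, hu.1.1.2⟩)
    (few_tgR htm hW hf hy aB le_rfl hLB h1 h2 hN ?_ (fun l hl => ?_))
  · linarith
  · rcases Nat.lt_succ_iff_lt_or_eq.1 hl with h | rfl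
    · rw [lBl l h]
      linarith [hMl l h]
    · rw [lBd]
      linarith

end

/-- Fewer places. -/
theorem chG_take {c : ℕ → Fin m} {r r' : ℕ} {sn : ℕ → ℝ → ℝ} {G : Set ℝ}
    (h : ChG S c r sn G) (hr : r' ≤ r) : ChG S c r' sn G := by
  refine ⟨fun w hw => ?_⟩
  obtain ⟨u₁, rd, h1, h2⟩ := h.ch w hw
  exact ⟨u₁, rd, fun i hi => h1 i (by omega), h2.take (Nat.zero_le _) hr⟩

/-- **The list of order `i`** over the charts of `b`: the jets of the last place of the chain and of the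
next place, `D + s` and `D` digits behind the level. -/
noncomputable def xL (m : ℕ) (c : ℕ → Fin m) (r i : ℕ) (b : ℝ) (sn : ℕ → ℝ → ℝ) (D s : ℝ) :
    Qt m (ℤ × ℤ) :=
  (qJet m ((range r).image c) (c r) i b (sn r b) (sn r b - i * b + D + s)).prod
    (qJet m ((range (r + 1)).image c) (c (r + 1)) i b (sn (r + 1) b)
      (sn (r + 1) b - i * b + D))

/-- **The data at the record window** `x`; `R` bounds the digits behind the levels. -/
structure LsW (sn : ℕ → ℝ → ℝ) (r : ℕ) (nH nV lv : ℕ → ℝ) (σ₀ : ℝ) (G : Set ℝ) (R b x : ℝ) :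
    Prop where
  nr : NrC sn r nH nV lv σ₀ b x
  hi : HiW sn r lv (σ₀ / 2) G x
  r1 : R + σ₀ ≤ 1 - x
  r2 : ∀ l < r, R + σ₀ ≤ lv l
  kh : ∀ l < r, nH l + σ₀ ≤ sn l b + (1 - x)
  kv : ∀ l < r, nV l + x + σ₀ ≤ sn l b + (1 - x)
  sh : ∀ l < r, ∀ l' < l, nH l + σ₀ ≤ sn l b + lv l'
  sv : ∀ l < r, ∀ l' < l, nV l + x + σ₀ ≤ sn l b + lv l'

section

variable {c : ℕ → Fin m} {r : ℕ} {sn : ℕ → ℝ → ℝ} {G : Set ℝ} {nH nV lv : ℕ → ℝ}
  {σ₀ R b x : ℝ}

theorem LsW.lvR (h : LsW sn r nH nV lv σ₀ G R b x) : LvR r lv (σ₀ / 2) x :=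
  LvR.of_hi h.hi (half_pos h.nr.σ0) h.nr.lv0

/-- The near path exists. -/
theorem xL_exs (hW : ChG S c (r + 1) sn G) (hT : TwT S c r sn G (c (r + 1)) (sn (r + 1)))
    (hb : b ∈ G) (i : ℕ) (D s : ℝ) : Exs S (xL m c r i b sn D s) := by
  obtain ⟨u₁, rd, hrd, hch⟩ := hW.ch b hb
  exact (exs_jet (hrd r (by omega)) (hch.att r (Nat.zero_le r) (by omega))).prod
    (hT.exs hb i _)

/-- The near path: other charts of the same window. -/
theorem pa_self {C₀ : ℝ} (htm : TmC S C₀)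
    (hpos : ∀ (τ : ℝ) (J : ℕ) (F : Fam m J) (A : F.Ω → Prop), S.St τ J F A → 0 < Pe F.p A)
    (hW : ChG S c r sn G)
    (hf : ∀ (J : ℕ) (F : Fam m J), ∃ φ : α J F → PtT F, ∀ ω, ptr F J ω = φ (f J F ω))
    (hy : Kn ((range 0).image c) 1 1 y) (ax : x ∈ G) (h : LsW sn r nH nV lv σ₀ G R b x) :
    Few S f (vg x) y (paQ m c r b (fun l => sn l b) nH nV)
      (paQ m c r b (fun l => sn l b) nH nV) := by
  have hσ := h.nr.σ0
  have hL := h.lvR
  refine few_qjets hpos fun l _ hl j' hj' => ?_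
  refine few_cut hpos (exs_vp hW ax le_rfl j')
    (few_pv htm hpos hW hf hy ax h.nr h.hi j') ?_
  refine Few.pre hpos (fun u : (ℕ → ℕ → ℤ) × (ℕ → ℕ → ℤ) =>
    ((fun l' j'' => if 0 ≤ l' ∧ l' < l ∧ j'' ≤ j' then u.2 l' j'' else 0), u.1 l j')) ?_
    (few_tgR htm hW hf hy ax (i := l) hl.le
      ⟨hL.σ0, fun l' h => hL.pos l' (by omega), fun l' h => hL.room l' (by omega),
        fun l' h l'' h' => hL.dec l' (by omega) l'' h'⟩ (j := j') (k := c l)
      (w₁ := b) (w₂ := b) (p₁ := sn l b) (p₂ := sn l b)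
      (N₁ := if j' = 0 then nH l else nV l) (N₂ := if j' = 0 then nH l else nV l)
      h.nr.bW h.nr.bW le_rfl ?_ (fun l' hl' => ?_))
  · intro K e J F A u hu
    exact ⟨qJets_take hl.le le_rfl hu.2, hu.1.1 l (Nat.zero_le _) hl j' hj'⟩
  · rw [min_self]
    rcases Nat.eq_zero_or_pos j' with rfl | hj
    · simp only [if_true, Nat.cast_zero, zero_mul, add_zero]
      linarith [h.kh l hl]
    · obtain rfl : j' = 1 := by omega
      simp only [one_ne_zero, if_false, Nat.cast_one, one_mul]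
      linarith [h.kv l hl]
  · rw [min_self]
    rcases Nat.eq_zero_or_pos j' with rfl | hj
    · simp only [if_true, Nat.cast_zero, zero_mul, add_zero]
      linarith [h.sh l hl l' hl']
    · obtain rfl : j' = 1 := by omega
      simp only [one_ne_zero, if_false, Nat.cast_one, one_mul]
      linarith [h.sv l hl l' hl']

/-- **A jet of the last place** over the charts of `b`, other charts of `b`. -/
theorem u_self {C₀ : ℝ} (htm : TmC S C₀)
    (hpos : ∀ (τ : ℝ) (J : ℕ) (F : Fam m J) (A : F.Ω → Prop), S.St τ J F A → 0 < Pe F.p A)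
    (hW : ChG S c r sn G)
    (hf : ∀ (J : ℕ) (F : Fam m J), ∃ φ : α J F → PtT F, ∀ ω, ptr F J ω = φ (f J F ω))
    (hy : Kn ((range 0).image c) 1 1 y) (ax : x ∈ G) (h : LsW sn r nH nV lv σ₀ G R b x)
    {k : Fin m} {p : ℝ} {i : ℕ} {N₁ N₂ : ℝ} (hN : N₂ ≤ N₁) (hR : N₂ + i * x ≤ p + R) :
    Few S f (vg x) y ((paQ m c r b (fun l => sn l b) nH nV).prod
      (qJet m ((range r).image c) k i b p N₁))
      (qJet m ((range r).image c) k i b p N₂) :=
  few_tgCj htm hpos hW hf hy ax h.nr h.hi h.nr.bW h.nr.bW hN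
    (by rw [min_self]; linarith [h.r1]) fun l hl => by rw [min_self]; linarith [h.r2 l hl]

/-- **The natural digits** of a jet of the last place over the charts of `b`. -/
theorem u_nat {C₀ : ℝ} (htm : TmC S C₀)
    (hpos : ∀ (τ : ℝ) (J : ℕ) (F : Fam m J) (A : F.Ω → Prop), S.St τ J F A → 0 < Pe F.p A)
    (hW : ChG S c (r + 1) sn G)
    (hf : ∀ (J : ℕ) (F : Fam m J), ∃ φ : α J F → PtT F, ∀ ω, ptr F J ω = φ (f J F ω))
    (hy : Kn ((range 0).image c) 1 1 y) (ax : x ∈ G) (h : LsW sn r nH nV lv σ₀ G R b x)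
    {i : ℕ} {N : ℝ} (hN : N + i * x ≤ sn r x) (mn : sn r b ≤ sn r x)
    (hR : N + i * x ≤ sn r b + R) :
    Few S f (vg x) y (paQ m c r b (fun l => sn l b) nH nV)
      (qJet m ((range r).image c) (c r) i b (sn r b) N) := by
  obtain ⟨u₁, rd, hrd, hch⟩ := hW.ch x ax
  exact few0_cut hpos (exs_jet (N := N) (j := i) (hrd r (by omega))
    (hch.att r (Nat.zero_le r) (by omega))) (few0_jet htm hch.w0 hch.u0 hN _ _ _)
    (few_tgCj htm hpos (chG_take hW (Nat.le_succ r)) hf hy ax h.nr h.hi le_rfl h.nr.bW le_rfl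
      (by rw [min_eq_right mn]; linarith [h.r1])
      fun l hl => by rw [min_eq_right mn]; linarith [h.r2 l hl])

/-- **Few bits of each other**: the lists of order `i` over the charts of `b`, record at `x`. -/
theorem xL_few {C₀ : ℝ} (htm : TmC S C₀)
    (hpos : ∀ (τ : ℝ) (J : ℕ) (F : Fam m J) (A : F.Ω → Prop), S.St τ J F A → 0 < Pe F.p A)
    (hW : ChG S c (r + 1) sn G)
    (hf : ∀ (J : ℕ) (F : Fam m J), ∃ φ : α J F → PtT F, ∀ ω, ptr F J ω = φ (f J F ω))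
    (hy : Kn ((range 0).image c) 1 1 y) (hb : b ∈ G) (ax : x ∈ G)
    (h : LsW sn r nH nV lv σ₀ G R b x) (mn : sn r b ≤ sn r x) {i : ℕ} {D₁ D₂ s : ℝ}
    (hs : 0 < s) (hD : 0 ≤ D₂) (hD' : D₂ ≤ D₁)
    (hR : D₂ + s + i * (x - b) ≤ R)
    (hlow : 0 < i → D₂ + s + (i - 1) * (x - b) ≤ sn r x - sn r b) :
    Few S f (vg x) y ((paQ m c r b (fun l => sn l b) nH nV).prod (xL m c r i b sn D₁ s))
      (xL m c r i b sn D₂ s) := by
  have hσ := h.nr.σ0
  have hbx := h.nr.bW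
  have hW' := chG_take hW (Nat.le_succ r)
  obtain ⟨σ₁, hσ₁, hσ₁0, hσs⟩ : ∃ σ₁ : ℝ, 0 < σ₁ ∧ 3 * σ₁ ≤ σ₀ / 2 ∧ 2 * σ₁ ≤ s :=
    ⟨min (σ₀ / 6) (s / 2), by positivity, by linarith [min_le_left (σ₀ / 6) (s / 2)],
      by linarith [min_le_right (σ₀ / 6) (s / 2)]⟩
  have hmul : (i : ℝ) * x = i * b + i * (x - b) := by ring
  have hi0 : 0 ≤ (i : ℝ) * (x - b) := mul_nonneg (Nat.cast_nonneg _) (by linarith)
  -- the jets of the last place, given the near path and the jet of the list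
  have hu : ∀ j' ≤ i, Few S f (vg x) y ((paQ m c r b (fun l => sn l b) nH nV).prod
      (qJet m ((range r).image c) (c r) i b (sn r b) (sn r b - i * b + D₁ + s)))
      (qJet m ((range r).image c) (c r) j' b (sn r b)
        (sn r b + D₂ - (j' : ℕ) * b + 2 * σ₁)) := by
    intro j' hj'
    rcases Nat.lt_or_ge j' i with hlt | hge
    · refine Few.fst hpos (u_nat htm hpos hW hf hy ax h ?_ mn ?_)
      · have h1 := hlow (by omega)
        have h2 : (j' : ℝ) ≤ i - 1 := by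
          have : (j' : ℝ) + 1 ≤ i := by exact_mod_cast hlt
          linarith
        have h3 : (j' : ℝ) * (x - b) ≤ (i - 1) * (x - b) :=
          mul_le_mul_of_nonneg_right h2 (by linarith)
        have h4 : (j' : ℝ) * x = j' * b + j' * (x - b) := by ring
        linarith
      · have h2 : (j' : ℝ) ≤ i := by exact_mod_cast hj'
        have h3 : (j' : ℝ) * (x - b) ≤ i * (x - b) :=
          mul_le_mul_of_nonneg_right h2 (by linarith)
        have h4 : (j' : ℝ) * x = j' * b + j' * (x - b) := by ring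
        linarith
    · obtain rfl : j' = i := le_antisymm hj' hge
      exact u_self htm hpos hW' hf hy ax h (by linarith) (by linarith)
  have key := few_stepG (d := r) htm hpos hW hf hy ax hb h.lvR hbx h.nr.mn hD hσ₁ hσ₁0
    (j := i) (by linarith [h.r1]) (fun l hl => by linarith [h.r2 l hl])
    (Few.fst hpos (few_pv htm hpos hW' hf hy ax h.nr h.hi i)) hu
    (k := c (r + 1)) (w₁ := b) (w₂ := b) (p₁ := sn (r + 1) b) (p₂ := sn (r + 1) b)
    (N₁ := sn (r + 1) b - i * b + D₁) (N₂ := sn (r + 1) b - i * b + D₂) le_rfl le_rfl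
    (by linarith) (by rw [min_self]; linarith)
  refine Few.pair hpos ?_ ?_
  · exact Few.pre hpos (fun u : (ℕ → ℕ → ℤ) × (ℤ × ℤ) => (u.1, u.2.1))
      (fun K e J F A u hu => by exact ⟨hu.1, hu.2.1⟩)
      (u_self (k := c r) (p := sn r b) (i := i) (N₁ := sn r b - i * b + D₁ + s)
        (N₂ := sn r b - i * b + D₂ + s) htm hpos hW' hf hy ax h (by linarith) (by linarith))
  · exact Few.pre hpos (fun u : (ℕ → ℕ → ℤ) × (ℤ × ℤ) => ((u.1, u.2.1), u.2.2))
      (fun K e J F A u hu => by exact ⟨⟨hu.1, hu.2.1⟩, hu.2.2⟩) key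

/-- Few digits: the list is few bits. -/
theorem xL_zero {C₀ : ℝ} (htm : TmC S C₀)
    (hpos : ∀ (τ : ℝ) (J : ℕ) (F : Fam m J) (A : F.Ω → Prop), S.St τ J F A → 0 < Pe F.p A)
    (hW : ChG S c (r + 1) sn G) (hb : b ∈ G) {i : ℕ} {D s : ℝ} (hs : 0 ≤ s) (hD : D + s ≤ 0)
    (Q : Qt m U) : Few S f g y Q (xL m c r i b sn D s) := by
  obtain ⟨u₁, rd, hrd, hch⟩ := hW.ch b hb
  exact Few.pair hpos (Few0.few hpos (few0_jet htm hch.w0 hch.u0 (by linarith) _ _ _))
    (Few0.few hpos (few0_jet htm hch.w0 hch.u0 (by linarith) _ _ _))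

end

/-- **Levels linear up to `ε`** on `G ∩ [p, o]`: slope `1` before the place `r`, slope `a` at the
places `r` and `r + 1`; gaps at most `μ`. -/
structure LinG (sn : ℕ → ℝ → ℝ) (r : ℕ) (G : Set ℝ) (a p o ε μ : ℝ) : Prop where
  l1 : ∀ l < r, ∀ x ∈ G, ∀ y ∈ G, p ≤ x → x ≤ y → y ≤ o → |sn l y - sn l x - (y - x)| ≤ ε
  lu : ∀ x ∈ G, ∀ y ∈ G, p ≤ x → x ≤ y → y ≤ o → |sn r y - sn r x - a * (y - x)| ≤ ε
  ln : ∀ x ∈ G, ∀ y ∈ G, p ≤ x → x ≤ y → y ≤ o →
    |sn (r + 1) y - sn (r + 1) x - a * (y - x)| ≤ ε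
  gap : ∀ x, p ≤ x → x ≤ o → ∃ u ∈ G, x - μ ≤ u ∧ u ≤ x

section

variable {c : ℕ → Fin m} {r : ℕ} {sn : ℕ → ℝ → ℝ} {G : Set ℝ} {a p b x o ε μ A D : ℝ}

/-- **The data at the record window** from linear levels, digits `dgj`. -/
theorem lsW_lin (hA : 0 ≤ A) (hD : 0 < D) (hε : 0 ≤ ε) (hμ : 0 ≤ μ) (hεμ : ε + μ ≤ D / 4)
    (hL : LinG sn r G a p o ε μ) (hb : b ∈ G) (hx : x ∈ G) (hbx : b ≤ x) (hxo : x ≤ o)
    (hxb : x ≤ b + D) (hp : p + (A + 4 * D) * 4 ^ r + D ≤ b)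
    (hroom : 3 * ((A + 4 * D) * 4 ^ r) ≤ 1 - x) (mn : ∀ l < r, sn l b ≤ sn l x) :
    LsW sn r (fun l => sn l b + Pool.RJ28.dgj A D r l + 2 * D)
      (fun l => sn l b + Pool.RJ28.dgj A D r l + 2 * D - b) (Pool.RJ28.dgj A D r) (D / 2) G A b x := by
  obtain ⟨P, hP⟩ : ∃ P : ℝ, P = (A + 4 * D) * 4 ^ r := ⟨_, rfl⟩
  have hP4 : A + 4 * D ≤ P := by
    have h1 : (1 : ℝ) ≤ 4 ^ r := one_le_pow₀ (by norm_num)
    have h2 : (A + 4 * D) * 1 ≤ (A + 4 * D) * 4 ^ r := mul_le_mul_of_nonneg_left h1 (by linarith)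
    rw [hP]
    linarith
  rw [← hP] at hp hroom
  have hlt : ∀ l < r, 4 * (A + 4 * D) ≤ Pool.RJ28.dgj A D r l := fun l hl =>
    Pool.RJ28.dgj_lt hA hD hl
  have hst : ∀ l < r, ∀ l' < l, 4 * Pool.RJ28.dgj A D r l ≤ Pool.RJ28.dgj A D r l' :=
    fun l hl l' hl' => Pool.RJ28.dgj_st hA hD hl' hl
  have hle : ∀ l, Pool.RJ28.dgj A D r l ≤ P := fun l => by
    rw [hP]
    exact Pool.RJ28.dgj_le hA hD r l
  have hlx : ∀ l < r, sn l x ≤ sn l b + D + ε := fun l hl => by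
    have h1 := (abs_le.1 (hL.l1 l hl b hb x hx (by linarith) hbx hxo)).2
    linarith
  refine
    { nr := ⟨by linarith, hbx, fun l hl => by linarith [hlt l hl], mn, fun l hl => ?_,
        fun l hl => ?_, fun l hl => ?_, fun l hl l' hl' => ?_⟩
      hi := ⟨fun l hl => ?_, fun l hl => ?_⟩
      r1 := by linarith
      r2 := fun l hl => by linarith [hlt l hl]
      kh := fun l hl => by linarith [hle l]
      kv := fun l hl => by linarith [hle l]
      sh := fun l hl l' hl' => by linarith [hlt l hl, hst l hl l' hl']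
      sv := fun l hl l' hl' => by linarith [hlt l hl, hst l hl l' hl'] }
  · linarith [hlx l hl]
  · linarith [hlx l hl]
  · linarith [hlx l hl, hle l]
  · linarith [hlx l hl, hlt l hl, hst l hl l' hl']
  · linarith [hle l]
  · have h1 := hlt l hl
    obtain ⟨u, hu, u1, u2⟩ := hL.gap (x - (Pool.RJ28.dgj A D r l + D / 2 + ε))
      (by linarith [hle l]) (by linarith)
    have h2 := hL.l1 l hl u hu x hx (by linarith [hle l]) (by linarith) hxo
    have h3 := (abs_le.1 h2).1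
    have h4 := (abs_le.1 h2).2
    refine ⟨u, hu, by linarith, by linarith, by linarith, by linarith [hle l], fun l' hl' => ?_⟩
    linarith [hst l hl l' hl']

variable {nH nV lv : ℕ → ℝ} {σ₀ R : ℝ}

/-- The natural digits of the last place, linear levels. -/
theorem u_natL {C₀ : ℝ} (htm : TmC S C₀)
    (hpos : ∀ (τ : ℝ) (J : ℕ) (F : Fam m J) (A : F.Ω → Prop), S.St τ J F A → 0 < Pe F.p A)
    (hW : ChG S c (r + 1) sn G)
    (hf : ∀ (J : ℕ) (F : Fam m J), ∃ φ : α J F → PtT F, ∀ ω, ptr F J ω = φ (f J F ω))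
    (hy : Kn ((range 0).image c) 1 1 y) (ax : x ∈ G) (h : LsW sn r nH nV lv σ₀ G R b x)
    (hL : LinG sn r G a p o ε μ) (hb : b ∈ G) (hpb : p ≤ b) (hxo : x ≤ o)
    (mn : sn r b ≤ sn r x) (hR : a * (x - b) + ε ≤ R) {i : ℕ} {D : ℝ}
    (hD : D + ε ≤ (a - i) * (x - b)) :
    Few S f (vg x) y (paQ m c r b (fun l => sn l b) nH nV)
      (qJet m ((range r).image c) (c r) i b (sn r b) (sn r b - i * b + D)) := by
  have h1 := abs_le.1 (hL.lu b hb x ax hpb h.nr.bW hxo)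
  have h2 : (i : ℝ) * x = i * b + i * (x - b) := by ring
  exact u_nat htm hpos hW hf hy ax h (by linarith [h1.1]) mn (by linarith [h1.1, h1.2])

/-- **The natural digits of the next place**, linear levels. -/
theorem n_natL {C₀ : ℝ} (htm : TmC S C₀)
    (hpos : ∀ (τ : ℝ) (J : ℕ) (F : Fam m J) (A : F.Ω → Prop), S.St τ J F A → 0 < Pe F.p A)
    (hW : ChG S c (r + 1) sn G)
    (hT : TwT S c r sn G (c (r + 1)) (sn (r + 1)))
    (hf : ∀ (J : ℕ) (F : Fam m J), ∃ φ : α J F → PtT F, ∀ ω, ptr F J ω = φ (f J F ω))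
    (hy : Kn ((range 0).image c) 1 1 y) (hG : IsClosed G)
    (hmn : ∀ l ≤ r, ∀ w ∈ G, ∀ v ∈ G, w ≤ v → sn l w ≤ sn l v)
    (ax : x ∈ G) (h : LsW sn r nH nV lv σ₀ G R b x)
    (hL : LinG sn r G a p o ε μ) (hb : b ∈ G) (hpb : p ≤ b) (hxo : x ≤ o) (ha : 0 ≤ a)
    (hε : 0 ≤ ε) (hμ : 0 ≤ μ) (hR : a * (x - b) + ε ≤ R) {i : ℕ} (hRi : i * (x - b) ≤ R)
    {D : ℝ} (hD : D + a * μ + 2 * ε ≤ (a - i) * (x - b)) :
    Few S f (vg x) y (paQ m c r b (fun l => sn l b) nH nV)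
      (qJet m ((range (r + 1)).image c) (c (r + 1)) i b (sn (r + 1) b)
        (sn (r + 1) b - i * b + D)) := by
  have hbx := h.nr.bW
  have hσ := h.nr.σ0
  have h1 := abs_le.1 (hL.lu b hb x ax hpb hbx hxo)
  have h3 := abs_le.1 (hL.ln b hb x ax hpb hbx hxo)
  have h2 : (i : ℝ) * x = i * b + i * (x - b) := by ring
  have haμ : 0 ≤ a * μ := mul_nonneg ha hμ
  refine few_ownT htm hpos hW hf hy hmn ax h.lvR
    (few_pv htm hpos (chG_take hW (Nat.le_succ r)) hf hy ax h.nr h.hi i) hT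
    ⟨by linarith [h.r1, h1.2], fun l hl => by linarith [h.r2 l hl, h1.2], by linarith [h.r1],
      fun l hl => by linarith [h.r2 l hl]⟩ (by linarith [h3.1]) fun N' hN' => ?_
  obtain ⟨h₀, hh0, hh⟩ : ∃ h₀ : ℝ, 0 < h₀ ∧ a * h₀ ≤ sn (r + 1) b - i * b + D - N' := by
    have h5 : 0 < sn (r + 1) b - i * b + D - N' := by linarith
    refine ⟨(sn (r + 1) b - i * b + D - N') / (a + 1), by positivity, ?_⟩
    rw [mul_div_assoc', div_le_iff₀ (by positivity)]
    nlinarith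
  refine tel_fl (A := b) hG hb le_rfl ax hbx le_rfl hh0 fun X X' x1 x2 x3 x4 => ?_
  have hne : ∀ X, b ≤ X → (G ∩ Set.Icc b X).Nonempty := fun X hX => ⟨b, hb, le_rfl, hX⟩
  obtain ⟨f1, f2, f3⟩ := Pool.AVG96.fl_mem hG (hne X x1)
  obtain ⟨g1, g2, g3⟩ := Pool.AVG96.fl_mem hG (hne X' (x1.trans x2))
  have f4 : X - μ ≤ Pool.AVG96.fl G b X := by
    rcases le_total (X - μ) b with hh1 | hh1
    · exact hh1.trans f2
    · obtain ⟨u, hu, u1, u2⟩ := hL.gap X (by linarith) (by linarith)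
      exact u1.trans (Pool.AVG96.le_fl hu (by linarith) u2)
  have e1 := (abs_le.1 (hL.ln b hb _ f1 hpb f2 (by linarith))).1
  have e2 := (abs_le.1 (hL.lu _ g1 x ax (by linarith) (by linarith) hxo)).1
  have e3 : a * (X - μ) ≤ a * Pool.AVG96.fl G b X := mul_le_mul_of_nonneg_left f4 ha
  have e4 : a * Pool.AVG96.fl G b X' ≤ a * (X + h₀) :=
    mul_le_mul_of_nonneg_left (by linarith) ha
  nlinarith

/-- **The cost of a list**, linear levels. -/
theorem xL_cost {C₀ : ℝ} (htm : TmC S C₀)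
    (hpos : ∀ (τ : ℝ) (J : ℕ) (F : Fam m J) (A : F.Ω → Prop), S.St τ J F A → 0 < Pe F.p A)
    (hW : ChG S c (r + 1) sn G)
    (hT : TwT S c r sn G (c (r + 1)) (sn (r + 1)))
    (hf : ∀ (J : ℕ) (F : Fam m J), ∃ φ : α J F → PtT F, ∀ ω, ptr F J ω = φ (f J F ω))
    (hy : Kn ((range 0).image c) 1 1 y) (hG : IsClosed G)
    (hmn : ∀ l ≤ r, ∀ w ∈ G, ∀ v ∈ G, w ≤ v → sn l w ≤ sn l v)
    (ax : x ∈ G) (h : LsW sn r nH nV lv σ₀ G R b x)
    (hL : LinG sn r G a p o ε μ) (hb : b ∈ G) (hpb : p ≤ b) (hxo : x ≤ o) (ha : 0 ≤ a)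
    (hε : 0 ≤ ε) (hμ : 0 ≤ μ) (hR : a * (x - b) + ε ≤ R) {i : ℕ} (hRi : i * (x - b) ≤ R)
    {D s : ℝ} (hs : 0 ≤ s) :
    FewC S f (vg x) y (paQ m c r b (fun l => sn l b) nH nV) (xL m c r i b sn D s)
      (Real.log 2 * (2 * max 0 (D - (a - i) * (x - b)) + s + 3 * ε + a * μ)) := by
  have hl2 : 0 < Real.log 2 := Real.log_pos one_lt_two
  have haμ : 0 ≤ a * μ := mul_nonneg ha hμ
  have m1 := le_max_left 0 (D - (a - i) * (x - b))
  have m2 := le_max_right 0 (D - (a - i) * (x - b))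
  have c1 : FewC S f (vg x) y (paQ m c r b (fun l => sn l b) nH nV)
      (qJet m ((range r).image c) (c r) i b (sn r b) (sn r b - i * b + D + s))
      (Real.log 2 * (max 0 (D - (a - i) * (x - b)) + s + ε)) := by
    obtain ⟨D', hD'⟩ : ∃ D' : ℝ, D' = min (D + s) ((a - i) * (x - b) - ε) := ⟨_, rfl⟩
    have h1 : D' ≤ D + s := by rw [hD']; exact min_le_left _ _
    have h2 : D' ≤ (a - i) * (x - b) - ε := by rw [hD']; exact min_le_right _ _
    have h3 : D + s ≤ D' + (max 0 (D - (a - i) * (x - b)) + s + ε) := by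
      rw [hD']
      rcases min_choice (D + s) ((a - i) * (x - b) - ε) with h | h <;> rw [h] <;> linarith
    refine (few_more hpos (N := sn r b - i * b + D') (by linarith)
      (u_natL htm hpos hW hf hy ax h hL hb hpb hxo (hmn r le_rfl b hb x ax h.nr.bW) hR
        (by linarith))).mono (mul_le_mul_of_nonneg_left ?_ hl2.le)
    linarith
  have c2 : FewC S f (vg x) y (paQ m c r b (fun l => sn l b) nH nV)
      (qJet m ((range (r + 1)).image c) (c (r + 1)) i b (sn (r + 1) b)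
        (sn (r + 1) b - i * b + D))
      (Real.log 2 * (max 0 (D - (a - i) * (x - b)) + a * μ + 2 * ε)) := by
    obtain ⟨D', hD'⟩ : ∃ D' : ℝ, D' = min D ((a - i) * (x - b) - a * μ - 2 * ε) := ⟨_, rfl⟩
    have h1 : D' ≤ D := by rw [hD']; exact min_le_left _ _
    have h2 : D' ≤ (a - i) * (x - b) - a * μ - 2 * ε := by rw [hD']; exact min_le_right _ _
    have h3 : D ≤ D' + (max 0 (D - (a - i) * (x - b)) + a * μ + 2 * ε) := by
      rw [hD']
      rcases min_choice D ((a - i) * (x - b) - a * μ - 2 * ε) with h | h <;> rw [h] <;> linarith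
    refine (few_more hpos (N := sn (r + 1) b - i * b + D') (by linarith)
      (n_natL htm hpos hW hT hf hy hG hmn ax h hL hb hpb hxo ha hε hμ hR hRi
        (by linarith))).mono (mul_le_mul_of_nonneg_left ?_ hl2.le)
    linarith
  exact (FewC.seq hpos c1 (FewC.fst hpos c2)).mono (le_of_eq (by ring))

/-- **Few bits of each other**, linear levels: the lower orders are natural at `x`. -/
theorem xL_fewL {C₀ : ℝ} (htm : TmC S C₀)
    (hpos : ∀ (τ : ℝ) (J : ℕ) (F : Fam m J) (A : F.Ω → Prop), S.St τ J F A → 0 < Pe F.p A)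
    (hW : ChG S c (r + 1) sn G)
    (hf : ∀ (J : ℕ) (F : Fam m J), ∃ φ : α J F → PtT F, ∀ ω, ptr F J ω = φ (f J F ω))
    (hy : Kn ((range 0).image c) 1 1 y) (ax : x ∈ G) (h : LsW sn r nH nV lv σ₀ G R b x)
    (hL : LinG sn r G a p o ε μ) (hb : b ∈ G) (hpb : p ≤ b) (hxo : x ≤ o)
    (mn : sn r b ≤ sn r x) {i : ℕ} {D₁ D₂ s : ℝ} (hs : 0 < s) (hD : 0 ≤ D₂) (hD' : D₂ ≤ D₁)
    (hR : D₂ + s + i * (x - b) ≤ R)
    (hlow : 0 < i → D₂ + s + ε ≤ (a - i + 1) * (x - b)) :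
    Few S f (vg x) y ((paQ m c r b (fun l => sn l b) nH nV).prod (xL m c r i b sn D₁ s))
      (xL m c r i b sn D₂ s) := by
  have h1 := abs_le.1 (hL.lu b hb x ax hpb h.nr.bW hxo)
  exact xL_few htm hpos hW hf hy hb ax h mn hs hD hD' hR fun hi => by
    have h2 := hlow hi
    linarith [h1.1]

end

end Pool.LST30
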