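import Pool.Agent.H30.AB.Lst
import Pool.Agent.H63.AB.Bxd

/-!
# Facts about `qu`, `qn`, `xg`

The jets of the places `c r`, `c (r + 1)` over the labels of an early window `b`, the labels of
`c (r + 1)` with the precision `sn (r + 1) b - γ`, `0 ≤ γ < s`; the record is at the window `x`.
`xg_xL`, `xL_xg`: `xg` and `xL` are few bits of each other; `xg_few`: fewer digits, another `γ`;
`qn_nat`, `qu_nat`: natural digits; `qu_zero`, `qn_zero`, `xg_zero`: few digits; `qu_exs`, `qn_exs`,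
`xg_exs`: existence.
-/

set_option autoImplicit false

namespace Pool.XG30

open Finset Real MvPolynomial
open Pool.Agent.H49.Ent Pool.Agent.H32.Dense Pool.STK Pool.KA Pool.KSAT Pool.K2S Pool.PB Pool.S6C
  Pool.GEN Pool.RCD Pool.LA91
open Pool.AVG96 (few_cut)
open Pool.LP30 Pool.LPJ30 Pool.LPT30 Pool.LST30 Pool.AB63

variable {m : ℕ} {U U' : Type} {α β γ' : ∀ J : ℕ, Fam m J → Type}
  {f : ∀ (J : ℕ) (F : Fam m J), F.Ω → α J F} {g : ∀ (J : ℕ) (F : Fam m J), F.Ω → β J F}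
  {y : ∀ (J : ℕ) (F : Fam m J), F.Ω → γ' J F} {S : PCl m}

/-- Labels of a lower precision. -/
theorem jet_prec {I : Finset (Fin m)} {k : Fin m} {j : ℕ} {w p p' N : ℝ} (hp : p' ≤ p) {K : ℕ}
    {e : ℝ} {J : ℕ} {F : Fam m J} {A : F.Ω → Prop} {u : F.Ω → ℤ}
    (h : (qJet m I k j w p N).P K e J F A u) : (qJet m I k j w p' N).P K e J F A u := by
  obtain ⟨hc, V, z, z', G, hl, hu⟩ := h
  exact ⟨hc, V, z, z', G, hl.mono (Finset.Subset.refl _) le_rfl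
    (Nat.floor_le_floor (mul_le_mul_of_nonneg_right (by linarith) (Nat.cast_nonneg J))), hu⟩

theorem exs_prec {I : Finset (Fin m)} {k : Fin m} {j : ℕ} {w p p' N : ℝ} (hp : p' ≤ p)
    (h : Exs S (qJet m I k j w p N)) : Exs S (qJet m I k j w p' N) := by
  intro e he
  obtain ⟨K, K', H⟩ := h e he
  refine ⟨K, K', Bas.mono 0 H ?_⟩
  rintro J - F A ⟨u, hu⟩
  exact ⟨u, jet_prec hp hu.1, hu.2⟩

/-- The targets with the precision `T - γ`. -/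
theorem twT_prec {c : ℕ → Fin m} {d : ℕ} {sn : ℕ → ℝ → ℝ} {G : Set ℝ} {k : Fin m} {T : ℝ → ℝ}
    {γ : ℝ} (hγ : 0 ≤ γ) (h : TwT S c d sn G k T) : TwT S c d sn G k (fun w => T w - γ) where
  ex := fun w hw j N => exs_prec (by linarith) (h.ex w hw j N)
  mono := fun w hw v hv hwv => by linarith [h.mono w hw v hv hwv]

theorem xg_eq (c : ℕ → Fin m) (r : ℕ) (b : ℝ) (sn : ℕ → ℝ → ℝ) (s : ℝ) (i : ℕ) (D : ℝ) :
    xg m c r b sn 0 s i D = xL m c r i b sn D s := by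
  simp only [xg, qu, qn, xL, sub_zero, add_assoc]

section

variable {c : ℕ → Fin m} {r : ℕ} {sn : ℕ → ℝ → ℝ} {G : Set ℝ} {nH nV lv : ℕ → ℝ}
  {σ₀ R b x γ γ₁ γ₂ s : ℝ}

/-! ### Existence -/

theorem qu_exs (hW : ChG S c (r + 1) sn G) (hb : b ∈ G) (l : ℕ) (D : ℝ) :
    Exs S (qu m c r b sn l D) := by
  obtain ⟨u₁, rd, hrd, hch⟩ := hW.ch b hb
  exact exs_jet (hrd r (by omega)) (hch.att r (Nat.zero_le r) (by omega))

theorem qn_exs (hT : TwT S c r sn G (c (r + 1)) (sn (r + 1))) (hb : b ∈ G) (hγ : 0 ≤ γ) (l : ℕ)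
    (D : ℝ) : Exs S (qn m c r b sn γ l D) :=
  exs_prec (by linarith) (hT.exs hb l _)

theorem xg_exs (hW : ChG S c (r + 1) sn G) (hT : TwT S c r sn G (c (r + 1)) (sn (r + 1)))
    (hb : b ∈ G) (hγ : 0 ≤ γ) (l : ℕ) (D : ℝ) : Exs S (xg m c r b sn γ s l D) :=
  (qu_exs hW hb l _).prod (qn_exs hT hb hγ l D)

/-! ### Few digits -/

theorem qu_zero {C₀ : ℝ} (htm : TmC S C₀)
    (hpos : ∀ (τ : ℝ) (J : ℕ) (F : Fam m J) (A : F.Ω → Prop), S.St τ J F A → 0 < Pe F.p A)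
    (hW : ChG S c (r + 1) sn G) (hb : b ∈ G) {l : ℕ} {D : ℝ} (hD : D ≤ 0) (Q : Qt m U) :
    Few S f g y Q (qu m c r b sn l D) := by
  obtain ⟨u₁, rd, hrd, hch⟩ := hW.ch b hb
  exact Few0.few hpos (few0_jet htm hch.w0 hch.u0 (by linarith) _ _ _)

theorem qn_zero {C₀ : ℝ} (htm : TmC S C₀)
    (hpos : ∀ (τ : ℝ) (J : ℕ) (F : Fam m J) (A : F.Ω → Prop), S.St τ J F A → 0 < Pe F.p A)
    (hW : ChG S c (r + 1) sn G) (hb : b ∈ G) {l : ℕ} {D : ℝ} (hD : D ≤ -γ) (Q : Qt m U) :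
    Few S f g y Q (qn m c r b sn γ l D) := by
  obtain ⟨u₁, rd, hrd, hch⟩ := hW.ch b hb
  exact Few0.few hpos (few0_jet htm hch.w0 hch.u0 (by linarith) _ _ _)

theorem xg_zero {C₀ : ℝ} (htm : TmC S C₀)
    (hpos : ∀ (τ : ℝ) (J : ℕ) (F : Fam m J) (A : F.Ω → Prop), S.St τ J F A → 0 < Pe F.p A)
    (hW : ChG S c (r + 1) sn G) (hb : b ∈ G) {l : ℕ} {D : ℝ} (hD : D + s ≤ 0) (hγ : γ ≤ s)
    (Q : Qt m U) : Few S f g y Q (xg m c r b sn γ s l D) :=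
  Few.pair hpos (qu_zero htm hpos hW hb hD Q) (qn_zero htm hpos hW hb (by linarith) Q)

/-! ### Change of the labels -/

/-- **The jets of the place** `c r` to fewer digits. -/
theorem qu_few {C₀ : ℝ} (htm : TmC S C₀)
    (hpos : ∀ (τ : ℝ) (J : ℕ) (F : Fam m J) (A : F.Ω → Prop), S.St τ J F A → 0 < Pe F.p A)
    (hW : ChG S c (r + 1) sn G)
    (hf : ∀ (J : ℕ) (F : Fam m J), ∃ φ : α J F → PtT F, ∀ ω, ptr F J ω = φ (f J F ω))
    (hy : Kn ((range 0).image c) 1 1 y) (ax : x ∈ G)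
    (h : LsW sn r nH nV lv σ₀ G R b x) {i : ℕ} {D₁ D₂ : ℝ} (hD : D₂ ≤ D₁)
    (hR : D₂ + i * (x - b) ≤ R) :
    Few S f (vg x) y ((paQ m c r b (fun l => sn l b) nH nV).prod (qu m c r b sn i D₁))
      (qu m c r b sn i D₂) :=
  u_self htm hpos (chG_take hW (Nat.le_succ r)) hf hy ax h (by linarith)
    (by have : (i : ℝ) * x = i * b + i * (x - b) := by ring
        linarith)

/-- **Both jets**: fewer digits, another precision of the labels. -/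
theorem xg_few {C₀ : ℝ} (htm : TmC S C₀)
    (hpos : ∀ (τ : ℝ) (J : ℕ) (F : Fam m J) (A : F.Ω → Prop), S.St τ J F A → 0 < Pe F.p A)
    (hW : ChG S c (r + 1) sn G)
    (hf : ∀ (J : ℕ) (F : Fam m J), ∃ φ : α J F → PtT F, ∀ ω, ptr F J ω = φ (f J F ω))
    (hy : Kn ((range 0).image c) 1 1 y) (hb : b ∈ G) (ax : x ∈ G)
    (h : LsW sn r nH nV lv σ₀ G R b x) (mn : sn r b ≤ sn r x) {i : ℕ} {D₁ D₂ : ℝ}
    (h1 : 0 ≤ γ₁) (h1s : γ₁ < s) (h2 : 0 ≤ γ₂) (h2s : γ₂ < s) (hD : 0 ≤ D₂) (hD' : D₂ ≤ D₁)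
    (hR : D₂ + s + i * (x - b) ≤ R)
    (hlow : 0 < i → D₂ + s + (i - 1) * (x - b) ≤ sn r x - sn r b) :
    Few S f (vg x) y ((paQ m c r b (fun l => sn l b) nH nV).prod (xg m c r b sn γ₁ s i D₁))
      (xg m c r b sn γ₂ s i D₂) := by
  have hσ := h.nr.σ0
  have hbx := h.nr.bW
  have hW' := chG_take hW (Nat.le_succ r)
  obtain ⟨M, hM, hM1, hM2, hMs⟩ : ∃ M : ℝ, 0 ≤ M ∧ D₂ + γ₁ ≤ M ∧ D₂ + γ₂ ≤ M ∧
      M < D₂ + s := ⟨D₂ + max γ₁ γ₂, by linarith [le_max_left γ₁ γ₂],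
    by linarith [le_max_left γ₁ γ₂], by linarith [le_max_right γ₁ γ₂],
    by linarith [max_lt h1s h2s]⟩
  obtain ⟨σ₁, hσ₁, hσ₁0, hσs⟩ : ∃ σ₁ : ℝ, 0 < σ₁ ∧ 3 * σ₁ ≤ σ₀ / 2 ∧
      M + 2 * σ₁ ≤ D₂ + s :=
    ⟨min (σ₀ / 6) ((D₂ + s - M) / 2),
      lt_min (by linarith) (by linarith),
      by linarith [min_le_left (σ₀ / 6) ((D₂ + s - M) / 2)],
      by linarith [min_le_right (σ₀ / 6) ((D₂ + s - M) / 2)]⟩
  have hmul : (i : ℝ) * x = i * b + i * (x - b) := by ring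
  have hi0 : 0 ≤ (i : ℝ) * (x - b) := mul_nonneg (Nat.cast_nonneg _) (by linarith)
  -- the jets of the last place, given the near path and the jet of the list
  have hu : ∀ j' ≤ i, Few S f (vg x) y ((paQ m c r b (fun l => sn l b) nH nV).prod
      (qu m c r b sn i (D₁ + s)))
      (qJet m ((range r).image c) (c r) j' b (sn r b)
        (sn r b + M - (j' : ℕ) * b + 2 * σ₁)) := by
    intro j' hj'
    rcases Nat.lt_or_ge j' i with hlt | hge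
    · refine Few.fst hpos (u_nat htm hpos hW hf hy ax h ?_ mn ?_)
      · have h1 := hlow (by omega)
        have h2 : (j' : ℝ) ≤ i - 1 := by
          have : (j' : ℝ) + 1 ≤ i := by exact_mod_cast hlt
          linarith
        have h3 : (j' : ℝ) * (x - b) ≤ (i - 1) * (x - b) :=
          mul_le_mul_of_nonneg_right h2 (by linarith)
        have h4 : (j' : ℝ) * x = j' * b + j' * (x - b) := by ring
        linarith
      · have h2 : (j' : ℝ) ≤ i := by exact_mod_cast hj'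
        have h3 : (j' : ℝ) * (x - b) ≤ i * (x - b) :=
          mul_le_mul_of_nonneg_right h2 (by linarith)
        have h4 : (j' : ℝ) * x = j' * b + j' * (x - b) := by ring
        linarith
    · obtain rfl : j' = i := le_antisymm hj' hge
      exact u_self htm hpos hW' hf hy ax h (by linarith) (by linarith)
  have key := few_stepG (d := r) htm hpos hW hf hy ax hb h.lvR hbx h.nr.mn hM hσ₁ hσ₁0
    (j := i) (by linarith [h.r1]) (fun l hl => by linarith [h.r2 l hl])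
    (Few.fst hpos (few_pv htm hpos hW' hf hy ax h.nr h.hi i)) hu
    (k := c (r + 1)) (w₁ := b) (w₂ := b) (p₁ := sn (r + 1) b - γ₁) (p₂ := sn (r + 1) b - γ₂)
    (N₁ := sn (r + 1) b - i * b + D₁) (N₂ := sn (r + 1) b - i * b + D₂) le_rfl le_rfl
    (by linarith) (by
      rcases min_choice (sn (r + 1) b - γ₁) (sn (r + 1) b - γ₂) with h3 | h3 <;> rw [h3] <;>
        linarith)
  refine Few.pair hpos ?_ ?_
  · exact Few.pre hpos (fun u : (ℕ → ℕ → ℤ) × (ℤ × ℤ) => (u.1, u.2.1))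
      (fun K e J F A u hu => by exact ⟨hu.1, hu.2.1⟩)
      (qu_few (i := i) (D₁ := D₁ + s) (D₂ := D₂ + s) htm hpos hW hf hy ax h (by linarith) hR)
  · exact Few.pre hpos (fun u : (ℕ → ℕ → ℤ) × (ℤ × ℤ) => ((u.1, u.2.1), u.2.2))
      (fun K e J F A u hu => by exact ⟨⟨hu.1, hu.2.1⟩, hu.2.2⟩) key

/-- `xg` from `xL`. -/
theorem xL_xg {C₀ : ℝ} (htm : TmC S C₀)
    (hpos : ∀ (τ : ℝ) (J : ℕ) (F : Fam m J) (A : F.Ω → Prop), S.St τ J F A → 0 < Pe F.p A)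
    (hW : ChG S c (r + 1) sn G)
    (hf : ∀ (J : ℕ) (F : Fam m J), ∃ φ : α J F → PtT F, ∀ ω, ptr F J ω = φ (f J F ω))
    (hy : Kn ((range 0).image c) 1 1 y) (hb : b ∈ G) (ax : x ∈ G)
    (h : LsW sn r nH nV lv σ₀ G R b x) (mn : sn r b ≤ sn r x) {i : ℕ} {D₁ D₂ : ℝ}
    (hγ : 0 ≤ γ) (hs : γ < s) (hD : 0 ≤ D₂) (hD' : D₂ ≤ D₁) (hR : D₂ + s + i * (x - b) ≤ R)
    (hlow : 0 < i → D₂ + s + (i - 1) * (x - b) ≤ sn r x - sn r b) :
    Few S f (vg x) y ((paQ m c r b (fun l => sn l b) nH nV).prod (xL m c r i b sn D₁ s))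
      (xg m c r b sn γ s i D₂) := by
  rw [← xg_eq]
  exact xg_few htm hpos hW hf hy hb ax h mn le_rfl (by linarith) hγ hs hD hD' hR hlow

/-- `xL` from `xg`. -/
theorem xg_xL {C₀ : ℝ} (htm : TmC S C₀)
    (hpos : ∀ (τ : ℝ) (J : ℕ) (F : Fam m J) (A : F.Ω → Prop), S.St τ J F A → 0 < Pe F.p A)
    (hW : ChG S c (r + 1) sn G)
    (hf : ∀ (J : ℕ) (F : Fam m J), ∃ φ : α J F → PtT F, ∀ ω, ptr F J ω = φ (f J F ω))
    (hy : Kn ((range 0).image c) 1 1 y) (hb : b ∈ G) (ax : x ∈ G)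
    (h : LsW sn r nH nV lv σ₀ G R b x) (mn : sn r b ≤ sn r x) {i : ℕ} {D₁ D₂ : ℝ}
    (hγ : 0 ≤ γ) (hs : γ < s) (hD : 0 ≤ D₂) (hD' : D₂ ≤ D₁) (hR : D₂ + s + i * (x - b) ≤ R)
    (hlow : 0 < i → D₂ + s + (i - 1) * (x - b) ≤ sn r x - sn r b) :
    Few S f (vg x) y ((paQ m c r b (fun l => sn l b) nH nV).prod (xg m c r b sn γ s i D₁))
      (xL m c r i b sn D₂ s) := by
  rw [← xg_eq]
  exact xg_few htm hpos hW hf hy hb ax h mn hγ hs le_rfl (by linarith) hD hD' hR hlow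

/-! ### Natural digits -/

variable {a p o ε μ : ℝ}

/-- The natural digits of `qu`. -/
theorem qu_nat {C₀ : ℝ} (htm : TmC S C₀)
    (hpos : ∀ (τ : ℝ) (J : ℕ) (F : Fam m J) (A : F.Ω → Prop), S.St τ J F A → 0 < Pe F.p A)
    (hW : ChG S c (r + 1) sn G)
    (hf : ∀ (J : ℕ) (F : Fam m J), ∃ φ : α J F → PtT F, ∀ ω, ptr F J ω = φ (f J F ω))
    (hy : Kn ((range 0).image c) 1 1 y) (ax : x ∈ G) (h : LsW sn r nH nV lv σ₀ G R b x)
    (hL : LinG sn r G a p o ε μ) (hb : b ∈ G) (hpb : p ≤ b) (hxo : x ≤ o)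
    (mn : sn r b ≤ sn r x) (hR : a * (x - b) + ε ≤ R) {i : ℕ} {D : ℝ}
    (hD : D + ε ≤ (a - i) * (x - b)) :
    Few S f (vg x) y (paQ m c r b (fun l => sn l b) nH nV) (qu m c r b sn i D) :=
  u_natL htm hpos hW hf hy ax h hL hb hpb hxo mn hR hD

/-- **The natural digits of `qn`**, linear levels. -/
theorem qn_nat {C₀ : ℝ} (htm : TmC S C₀)
    (hpos : ∀ (τ : ℝ) (J : ℕ) (F : Fam m J) (A : F.Ω → Prop), S.St τ J F A → 0 < Pe F.p A)
    (hW : ChG S c (r + 1) sn G)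
    (hT : TwT S c r sn G (c (r + 1)) (sn (r + 1)))
    (hf : ∀ (J : ℕ) (F : Fam m J), ∃ φ : α J F → PtT F, ∀ ω, ptr F J ω = φ (f J F ω))
    (hy : Kn ((range 0).image c) 1 1 y) (hG : IsClosed G)
    (hmn : ∀ l ≤ r, ∀ w ∈ G, ∀ v ∈ G, w ≤ v → sn l w ≤ sn l v)
    (ax : x ∈ G) (h : LsW sn r nH nV lv σ₀ G R b x)
    (hL : LinG sn r G a p o ε μ) (hb : b ∈ G) (hpb : p ≤ b) (hxo : x ≤ o) (ha : 0 ≤ a)
    (hε : 0 ≤ ε) (hμ : 0 ≤ μ) (hγ : 0 ≤ γ) (hR : a * (x - b) + ε ≤ R) {i : ℕ}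
    (hRi : i * (x - b) ≤ R) {D : ℝ} (hD : D + a * μ + 2 * ε + γ ≤ (a - i) * (x - b)) :
    Few S f (vg x) y (paQ m c r b (fun l => sn l b) nH nV) (qn m c r b sn γ i D) := by
  have hbx := h.nr.bW
  have hσ := h.nr.σ0
  have h1 := abs_le.1 (hL.lu b hb x ax hpb hbx hxo)
  have h3 := abs_le.1 (hL.ln b hb x ax hpb hbx hxo)
  have h2 : (i : ℝ) * x = i * b + i * (x - b) := by ring
  have haμ : 0 ≤ a * μ := mul_nonneg ha hμ
  have key := few_ownT htm hpos hW hf hy hmn ax h.lvR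
    (few_pv htm hpos (chG_take hW (Nat.le_succ r)) hf hy ax h.nr h.hi i) (twT_prec hγ hT)
    (B₀ := b) (P := sn (r + 1) b - i * b + D)
    ⟨by linarith [h.r1, h1.2], fun l hl => by linarith [h.r2 l hl, h1.2], by linarith [h.r1],
      fun l hl => by linarith [h.r2 l hl]⟩ (by linarith [h3.1]) fun N' hN' => ?_
  · exact key
  obtain ⟨h₀, hh0, hh⟩ : ∃ h₀ : ℝ, 0 < h₀ ∧ a * h₀ ≤ sn (r + 1) b - i * b + D - N' := by
    have h5 : 0 < sn (r + 1) b - i * b + D - N' := by linarith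
    refine ⟨(sn (r + 1) b - i * b + D - N') / (a + 1), by positivity, ?_⟩
    rw [mul_div_assoc', div_le_iff₀ (by positivity)]
    nlinarith
  refine tel_fl (A := b) hG hb le_rfl ax hbx le_rfl hh0 fun X X' x1 x2 x3 x4 => ?_
  have hne : ∀ X, b ≤ X → (G ∩ Set.Icc b X).Nonempty := fun X hX => ⟨b, hb, le_rfl, hX⟩
  obtain ⟨f1, f2, f3⟩ := Pool.AVG96.fl_mem hG (hne X x1)
  obtain ⟨g1, g2, g3⟩ := Pool.AVG96.fl_mem hG (hne X' (x1.trans x2))
  have f4 : X - μ ≤ Pool.AVG96.fl G b X := by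
    rcases le_total (X - μ) b with hh1 | hh1
    · exact hh1.trans f2
    · obtain ⟨u, hu, u1, u2⟩ := hL.gap X (by linarith) (by linarith)
      exact u1.trans (Pool.AVG96.le_fl hu (by linarith) u2)
  have e1 := (abs_le.1 (hL.ln b hb _ f1 hpb f2 (by linarith))).1
  have e2 := (abs_le.1 (hL.lu _ g1 x ax (by linarith) (by linarith) hxo)).1
  have e3 : a * (X - μ) ≤ a * Pool.AVG96.fl G b X := mul_le_mul_of_nonneg_left f4 ha
  have e4 : a * Pool.AVG96.fl G b X' ≤ a * (X + h₀) :=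
    mul_le_mul_of_nonneg_left (by linarith) ha
  nlinarith

end

end Pool.XG30
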